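import Pool.Agent.MP_39ed1d_co.H6.CoefA

/-! Comparison of the coefficients of `GG` with the model coefficients. -/

namespace Pool.Agent.MP_39ed1d_co.H6

open Pool.Agent.MP_39ed1d_co.H76

/-- The true coefficients. -/
noncomputable def ac (v : ℝ) (N : ℕ) : ℝ :=
  (RR v * uu (Real.cos (v ^ 3 / 2)) N) ^ N / N.factorial

theorem sin_phi_pos {v : ℝ} (hv : 0 < v) (hv1 : v ≤ 1 / 10) : 0 < Real.sin (v ^ 3 / 2) := by
  refine Real.sin_pos_of_pos_of_lt_pi (by positivity) ?_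
  have : v ^ 3 ≤ (1 / 10) ^ 3 := pow_le_pow_left₀ hv.le hv1 3
  linarith [Real.pi_gt_three]

theorem RR_pos {v : ℝ} (hv : 0 < v) (hv1 : v ≤ 1 / 10) : 0 < RR v := by
  have := sin_phi_pos hv hv1
  unfold RR
  positivity

theorem ac_eq {v : ℝ} (hv : 0 < v) {N : ℕ} (hN : 1 ≤ N) :
    ac v N = Real.exp (21 / 20 * (N * v ^ 2)) * ((N / Real.exp 1) ^ N / N.factorial) *
      (Real.sin (N * (v ^ 3 / 2)) / (N * (v ^ 3 / 2))) ^ N := by
  have hN' : (0 : ℝ) < N := by exact_mod_cast hN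
  have h1 : RR v * uu (Real.cos (v ^ 3 / 2)) N = Real.exp (21 / 20 * v ^ 2) * (N / Real.exp 1) *
      (Real.sin (N * (v ^ 3 / 2)) / (N * (v ^ 3 / 2))) := by
    rw [← uu_cos, RR, Real.exp_sub]
    field_simp
  rw [ac, h1, mul_pow, mul_pow, ← Real.exp_nat_mul]
  rw [show (N : ℝ) * (21 / 20 * v ^ 2) = 21 / 20 * (N * v ^ 2) by ring]
  ring

theorem cN_le {N : ℕ} (hN : 1 ≤ N) :
    ((N : ℝ) / Real.exp 1) ^ N / N.factorial ≤ 1 / √(2 * Real.pi * N) := by
  have hN' : (0 : ℝ) < N := by exact_mod_cast hN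
  have := Real.pi_pos
  rw [div_le_div_iff₀ (by positivity) (by positivity)]
  linarith [Stirling.le_factorial_stirling N]

theorem le_cN {N : ℕ} (hN : 1 ≤ N) : 1 / √(2 * Real.pi * N) * Real.exp (-(1 / (12 * N))) ≤
    ((N : ℝ) / Real.exp 1) ^ N / N.factorial := by
  have hN' : (0 : ℝ) < N := by exact_mod_cast hN
  have := Real.pi_pos
  rw [Real.exp_neg, ← one_div, div_mul_div_comm, div_le_div_iff₀ (by positivity) (by positivity)]
  linarith [stirling_upper hN]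

theorem term_small {v : ℝ} (hv : 0 < v) {N : ℕ} (hN : 1 ≤ N) (hx : N * (v ^ 3 / 2) ≤ 1) :
    |ac v N - ab v N| ≤ 1 / √(2 * Real.pi * N) * (1 / (12 * N) + v ^ 2 * step (N * v ^ 2)) := by
  have hN' : (0 : ℝ) < N := by exact_mod_cast hN
  have hpi := Real.pi_pos
  have hx0 : 0 < N * (v ^ 3 / 2) := by positivity
  set s : ℝ := N * v ^ 2 with hs
  have hs0 : 0 < s := by positivity
  set g : ℝ := 1 / √(2 * Real.pi * N) with hg
  have hg0 : 0 < g := by positivity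
  have hab : ab v N = g * om s := by rw [ab, hg]; ring
  have hlo := sinc_lower hx0 hx
  have hup := sinc_upper hx0 hx
  set S := Real.sin (N * (v ^ 3 / 2)) / (N * (v ^ 3 / 2)) with hS
  have hS0 : 0 ≤ S := (Real.exp_pos _).le.trans hlo
  have h1 : S ^ N ≤ Real.exp (-(s ^ 3 / 24)) := by
    refine (pow_le_pow_left₀ hS0 hup N).trans (le_of_eq ?_)
    rw [← Real.exp_nat_mul, hs]
    congr 1
    ring
  have h2 : Real.exp (-(s ^ 3 / 24)) * Real.exp (-(v ^ 2 * s ^ 5 / 2240)) ≤ S ^ N := by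
    refine le_trans (le_of_eq ?_) (pow_le_pow_left₀ (Real.exp_pos _).le hlo N)
    rw [← Real.exp_nat_mul, ← Real.exp_add, hs]
    congr 1
    ring
  have hom : om s = Real.exp (21 / 20 * s) * Real.exp (-(s ^ 3 / 24)) := by
    rw [om, ← Real.exp_add, sub_eq_add_neg]
  have hc1 := cN_le hN
  have hc2 := le_cN hN
  have hU : ac v N ≤ ab v N := by
    rw [ac_eq hv hN, hab, hom]
    calc Real.exp (21 / 20 * s) * ((N / Real.exp 1) ^ N / N.factorial) * S ^ N
        ≤ Real.exp (21 / 20 * s) * g * Real.exp (-(s ^ 3 / 24)) := by gcongr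
      _ = _ := by ring
  set δ : ℝ := 1 / (12 * N) + v ^ 2 * s ^ 5 / 2240 with hδ
  have hL : ab v N * (1 - δ) ≤ ac v N := by
    have e1 : 1 - δ ≤ Real.exp (-(1 / (12 * N))) * Real.exp (-(v ^ 2 * s ^ 5 / 2240)) := by
      rw [← Real.exp_add]
      have := Real.add_one_le_exp (-(1 / (12 * N)) + -(v ^ 2 * s ^ 5 / 2240))
      linarith
    rw [ac_eq hv hN]
    calc ab v N * (1 - δ)
        ≤ ab v N * (Real.exp (-(1 / (12 * N))) * Real.exp (-(v ^ 2 * s ^ 5 / 2240))) :=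
          mul_le_mul_of_nonneg_left e1 (ab_nonneg v N)
      _ = Real.exp (21 / 20 * s) * (g * Real.exp (-(1 / (12 * N)))) *
          (Real.exp (-(s ^ 3 / 24)) * Real.exp (-(v ^ 2 * s ^ 5 / 2240))) := by
          rw [hab, hom]
          ring
      _ ≤ _ := by gcongr
  rw [abs_sub_comm, abs_of_nonneg (by linarith)]
  have h3 : om s * δ ≤ 1 / (12 * N) + v ^ 2 * step s := by
    have e1 := psi_le hs0.le
    have e2 : om s * δ = (om s * (1 / 12 + s ^ 6 / 2240)) / N := by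
      rw [hδ, hs]
      field_simp
    have e3 : 1 / (12 * N) + v ^ 2 * step s = (1 / 12 + s * step s) / N := by
      generalize step s = y
      rw [hs]
      field_simp
    rw [e2, e3]
    gcongr
  calc ab v N - ac v N ≤ ab v N * δ := by linarith
    _ = g * (om s * δ) := by rw [hab]; ring
    _ ≤ _ := by gcongr

theorem term_big {v : ℝ} (hv : 0 < v) (hv1 : v ≤ 1 / 10) {N : ℕ} (hN : 1 ≤ N)
    (hx : 1 ≤ N * (v ^ 3 / 2)) :
    |ac v N - ab v N| ≤ 1 / √(2 * Real.pi * N) * (1 / (12 * N)) := by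
  have hN' : (0 : ℝ) < N := by exact_mod_cast hN
  have hpi := Real.pi_pos
  have hv3 : v ^ 3 ≤ (1 / 10) ^ 3 := pow_le_pow_left₀ hv.le hv1 3
  have hv2 : v ^ 2 ≤ (1 / 10) ^ 2 := pow_le_pow_left₀ hv.le hv1 2
  have hN2 : (2000 : ℝ) ≤ N := by nlinarith
  set s : ℝ := N * v ^ 2 with hs
  have hs0 : 0 < s := by positivity
  set g : ℝ := 1 / √(2 * Real.pi * N) with hg
  have hg0 : 0 < g := by positivity
  have hab : ab v N = g * om s := by rw [ab, hg]; ring
  have hexp : Real.exp (-(N / 12)) ≤ 1 / (24 * N) := by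
    have e1 := exp_ge_pow (t := N / 12) (by positivity) 3
    rw [Real.exp_neg, ← one_div]
    refine one_div_le_one_div_of_le (by positivity) (le_trans ?_ e1)
    norm_num [Nat.factorial]
    nlinarith [mul_le_mul hN2 hN2 (by norm_num) hN'.le]
  have h1 : om s ≤ 1 / (24 * N) := by
    refine le_trans (Real.exp_le_exp.2 ?_) hexp
    have e1 : s ^ 3 = N * (N * v ^ 3) ^ 2 := by rw [hs]; ring
    have e2 : 4 * N ≤ s ^ 3 := by
      rw [e1]
      nlinarith [mul_le_mul_of_nonneg_left (show (4 : ℝ) ≤ (N * v ^ 3) ^ 2 by nlinarith) hN'.le]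
    have e3 : 20 ≤ s := by
      have : s * v = N * v ^ 3 := by rw [hs]; ring
      nlinarith
    nlinarith [mul_nonneg hs0.le (by nlinarith : 0 ≤ s ^ 2 - 400)]
  have h2 : |ac v N| ≤ g * (1 / (24 * N)) := by
    have e1 := sinc_big hx
    have e2 : (89 / 100 : ℝ) ≤ Real.exp (-(1 / 10)) := by
      have := Real.add_one_le_exp (-(1 / 10) : ℝ)
      linarith
    have e3 : Real.exp (21 / 20 * s) * Real.exp (-(1 / 10)) ^ N ≤ Real.exp (-(N / 12)) := by
      rw [← Real.exp_nat_mul, ← Real.exp_add]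
      refine Real.exp_le_exp.2 ?_
      rw [hs]
      nlinarith
    have hc1 := cN_le hN
    rw [ac_eq hv hN, abs_mul, abs_mul, abs_pow, abs_of_pos (Real.exp_pos _),
      abs_of_nonneg (by positivity : (0 : ℝ) ≤ (N / Real.exp 1) ^ N / N.factorial)]
    calc _ ≤ Real.exp (21 / 20 * s) * g * Real.exp (-(1 / 10)) ^ N := by
          gcongr
          exact e1.trans e2
      _ = g * (Real.exp (21 / 20 * s) * Real.exp (-(1 / 10)) ^ N) := by ring
      _ ≤ _ := by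
          gcongr
          exact e3.trans hexp
  have h3 : ab v N ≤ g * (1 / (24 * N)) := by
    rw [hab]
    gcongr
  have h4 := ab_nonneg v N
  have h5 : g * (1 / (12 * N)) = g * (1 / (24 * N)) + g * (1 / (24 * N)) := by
    field_simp
    ring
  rw [h5]
  exact (abs_sub _ _).trans (add_le_add h2 (by rwa [abs_of_nonneg h4]))

theorem term_le {v : ℝ} (hv : 0 < v) (hv1 : v ≤ 1 / 10) {N : ℕ} (hN : 1 ≤ N) :
    |ac v N - ab v N| ≤ 2 / 5 * (1 / √N * (1 / (12 * N) + v ^ 2 * step (N * v ^ 2))) := by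
  have hN' : (0 : ℝ) < N := by exact_mod_cast hN
  have hst := step_nonneg (N * v ^ 2)
  have hg : 1 / √(2 * Real.pi * N) ≤ 2 / 5 * (1 / √N) := by
    have e1 : 5 / 2 ≤ √(2 * Real.pi) := Real.le_sqrt_of_sq_le (by linarith [Real.pi_gt_d2])
    rw [Real.sqrt_mul (by positivity), div_mul_div_comm,
      div_le_div_iff₀ (by positivity) (by positivity)]
    nlinarith [Real.sqrt_nonneg (N : ℝ)]
  rw [← mul_assoc]
  rcases le_total (N * (v ^ 3 / 2)) 1 with h | h
  · refine (term_small hv hN h).trans ?_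
    gcongr
  · refine (term_big hv hv1 hN h).trans ?_
    gcongr
    have : 0 ≤ v ^ 2 * step (N * v ^ 2) := by positivity
    linarith

/-- Clamping to an interval. -/
noncomputable def cl (a b u : ℝ) : ℝ := max a (min u b)

theorem cl_piece {v a b A : ℝ} (hv : 0 < v) (hA : 0 ≤ A) (n : ℕ) (p : Prop) [Decidable p]
    (h : p → a ≤ v * √n ∧ v * √((n : ℝ) + 1) ≤ b) :
    1 / √((n : ℝ) + 1) * (v * if p then A else 0) ≤
      2 * A * (cl a b (v * √((n : ℝ) + 1)) - cl a b (v * √n)) := by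
  have hn : (0 : ℝ) ≤ n := Nat.cast_nonneg n
  have hm : √(n : ℝ) ≤ √((n : ℝ) + 1) := Real.sqrt_le_sqrt (by linarith)
  have hm' : v * √(n : ℝ) ≤ v * √((n : ℝ) + 1) := by gcongr
  split_ifs with hp
  · obtain ⟨h1, h2⟩ := h hp
    rw [cl, cl, min_eq_left h2, min_eq_left (hm'.trans h2), max_eq_right h1,
      max_eq_right (h1.trans hm')]
    have e0 : 0 < √((n : ℝ) + 1) := Real.sqrt_pos.2 (by linarith)
    have e1 := Real.sq_sqrt hn
    have e2 := Real.sq_sqrt (show (0 : ℝ) ≤ n + 1 by linarith)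
    have e3 : 1 / √((n : ℝ) + 1) ≤ 2 * (√((n : ℝ) + 1) - √n) := by
      rw [div_le_iff₀ e0]
      nlinarith [sq_nonneg (√((n : ℝ) + 1) - √n)]
    nlinarith [mul_le_mul_of_nonneg_right e3 (mul_nonneg hv.le hA)]
  · have : cl a b (v * √n) ≤ cl a b (v * √((n : ℝ) + 1)) :=
      max_le_max le_rfl (min_le_min hm' le_rfl)
    rw [mul_zero, mul_zero]
    exact mul_nonneg (by linarith) (by linarith)

theorem zeta_piece (n : ℕ) : 1 / √((n : ℝ) + 1) * (1 / (12 * ((n : ℝ) + 1))) ≤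
    1 / 6 * (1 / √((n : ℝ) + 1 / 2) - 1 / √((n : ℝ) + 1 + 1 / 2)) := by
  have hn : (0 : ℝ) ≤ n := Nat.cast_nonneg n
  have ha : 0 < √((n : ℝ) + 1 / 2) := Real.sqrt_pos.2 (by linarith)
  have hb : 0 < √((n : ℝ) + 1 + 1 / 2) := Real.sqrt_pos.2 (by linarith)
  have hr : 0 < √((n : ℝ) + 1) := Real.sqrt_pos.2 (by linarith)
  have ea := Real.sq_sqrt (show (0 : ℝ) ≤ n + 1 / 2 by linarith)
  have eb := Real.sq_sqrt (show (0 : ℝ) ≤ n + 1 + 1 / 2 by linarith)
  have er := Real.sq_sqrt (show (0 : ℝ) ≤ n + 1 by linarith)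
  generalize √((n : ℝ) + 1 / 2) = a at *
  generalize √((n : ℝ) + 1 + 1 / 2) = b at *
  generalize √((n : ℝ) + 1) = r at *
  have h1 : a + b ≤ 2 * r := by
    refine (pow_le_pow_iff_left₀ (by positivity) (by positivity) two_ne_zero).1 ?_
    nlinarith [sq_nonneg (a - b)]
  have h2 : a * b ≤ r ^ 2 := by nlinarith [sq_nonneg (a - b)]
  have h3 : 1 / a - 1 / b = 1 / (a * b * (a + b)) := by
    have : (b - a) * (a + b) = 1 := by nlinarith
    field_simp
    linarith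
  rw [h3, ← er, div_mul_div_comm, div_mul_div_comm]
  refine div_le_div_of_nonneg_left (by norm_num) (by positivity) ?_
  nlinarith [mul_le_mul h2 h1 (by positivity) (by positivity)]

/-- The telescoping potential. -/
noncomputable def pot (v : ℝ) (n : ℕ) : ℝ := -(1 / 6 * (1 / √((n : ℝ) + 1 / 2))) +
  2 * v * (41 / 100 * cl 0 (283 / 100) (v * √n) + 7 / 10 * cl (141 / 100) (245 / 100) (v * √n) +
    13 / 10 * cl (172 / 100) (245 / 100) (v * √n))

theorem sqrt_lower {v a c : ℝ} (hv : 0 < v) (hv1 : v ≤ 1 / 10) (n : ℕ)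
    (h : c ≤ ((n : ℝ) + 1) * v ^ 2) (ha : a ^ 2 + 1 / 100 ≤ c) : a ≤ v * √n := by
  have hn : (0 : ℝ) ≤ n := Nat.cast_nonneg n
  have hv2 : v ^ 2 ≤ (1 / 10) ^ 2 := pow_le_pow_left₀ hv.le hv1 2
  refine le_trans (le_abs_self a) (abs_le_of_sq_le_sq' ?_ (by positivity)).2 |>.trans le_rfl
  rw [sq_abs, mul_pow, Real.sq_sqrt hn]
  nlinarith

theorem sqrt_upper {v b c : ℝ} (hv : 0 < v) (n : ℕ) (hb : 0 ≤ b)
    (h : ((n : ℝ) + 1) * v ^ 2 ≤ c) (hc : c ≤ b ^ 2) : v * √((n : ℝ) + 1) ≤ b := by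
  have hn : (0 : ℝ) ≤ n := Nat.cast_nonneg n
  refine (pow_le_pow_iff_left₀ (by positivity) hb two_ne_zero).1 ?_
  rw [mul_pow, Real.sq_sqrt (by linarith)]
  nlinarith

theorem tele {v : ℝ} (hv : 0 < v) (hv1 : v ≤ 1 / 10) (n : ℕ) :
    |ac v (n + 1) - ab v (n + 1)| ≤ 2 / 5 * (pot v (n + 1) - pot v n) := by
  refine (term_le hv hv1 (by omega)).trans ?_
  have h0 := zeta_piece n
  have h1 := cl_piece (a := 0) (b := 283 / 100) (A := 41 / 100) hv (by norm_num) n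
    (((n : ℝ) + 1) * v ^ 2 ≤ 8) fun h =>
      ⟨by positivity, sqrt_upper hv n (by norm_num) h (by norm_num)⟩
  have h2 := cl_piece (a := 141 / 100) (b := 245 / 100) (A := 7 / 10) hv (by norm_num) n
    (2 ≤ ((n : ℝ) + 1) * v ^ 2 ∧ ((n : ℝ) + 1) * v ^ 2 ≤ 6) fun h =>
      ⟨sqrt_lower hv hv1 n h.1 (by norm_num), sqrt_upper hv n (by norm_num) h.2 (by norm_num)⟩
  have h3 := cl_piece (a := 172 / 100) (b := 245 / 100) (A := 13 / 10) hv (by norm_num) n
    (3 ≤ ((n : ℝ) + 1) * v ^ 2 ∧ ((n : ℝ) + 1) * v ^ 2 ≤ 6) fun h =>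
      ⟨sqrt_lower hv hv1 n h.1 (by norm_num), sqrt_upper hv n (by norm_num) h.2 (by norm_num)⟩
  unfold pot step
  push_cast
  nlinarith [mul_le_mul_of_nonneg_left h1 hv.le, mul_le_mul_of_nonneg_left h2 hv.le,
    mul_le_mul_of_nonneg_left h3 hv.le]

theorem cl_le {a b : ℝ} (h : a ≤ b) (u : ℝ) : cl a b u ≤ b := max_le h (min_le_right _ _)

theorem le_cl (a b u : ℝ) : a ≤ cl a b u := le_max_left _ _

theorem sum_err {v : ℝ} (hv : 0 < v) (hv1 : v ≤ 1 / 10) (n : ℕ) :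
    ∑ k ∈ Finset.range n, |ac v (k + 1) - ab v (k + 1)| ≤ 1 / 3 := by
  refine (Finset.sum_le_sum fun k _ => tele hv hv1 k).trans ?_
  rw [← Finset.mul_sum, Finset.sum_range_sub]
  have h1 : 1 / √(((0 : ℕ) : ℝ) + 1 / 2) ≤ 1415 / 1000 := by
    have : 1000 / 1415 ≤ √(((0 : ℕ) : ℝ) + 1 / 2) := Real.le_sqrt_of_sq_le (by norm_num)
    rw [div_le_iff₀ (by positivity)]
    linarith
  have h2 : 0 ≤ 1 / √((n : ℝ) + 1 / 2) := by positivity
  have a1 := cl_le (a := 0) (b := 283 / 100) (by norm_num) (v * √n)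
  have a2 := cl_le (a := 141 / 100) (b := 245 / 100) (by norm_num) (v * √n)
  have a3 := cl_le (a := 172 / 100) (b := 245 / 100) (by norm_num) (v * √n)
  have b1 := le_cl 0 (283 / 100) (v * √((0 : ℕ) : ℝ))
  have b2 := le_cl (141 / 100) (245 / 100) (v * √((0 : ℕ) : ℝ))
  have b3 := le_cl (172 / 100) (245 / 100) (v * √((0 : ℕ) : ℝ))
  unfold pot
  nlinarith [mul_le_mul_of_nonneg_left a1 hv.le, mul_le_mul_of_nonneg_left a2 hv.le,
    mul_le_mul_of_nonneg_left a3 hv.le, mul_le_mul_of_nonneg_left b1 hv.le,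
    mul_le_mul_of_nonneg_left b2 hv.le, mul_le_mul_of_nonneg_left b3 hv.le]

theorem summable_err {v : ℝ} (hv : 0 < v) (hv1 : v ≤ 1 / 10) :
    Summable fun k => |ac v (k + 1) - ab v (k + 1)| :=
  summable_of_sum_range_le (fun _ => abs_nonneg _) (sum_err hv hv1)

theorem tsum_err {v : ℝ} (hv : 0 < v) (hv1 : v ≤ 1 / 10) :
    ∑' k, |ac v (k + 1) - ab v (k + 1)| ≤ 1 / 3 :=
  Real.tsum_le_of_sum_range_le (fun _ => abs_nonneg _) (sum_err hv hv1)

open Complex

theorem coef_cmp {v : ℝ} (hv : 0 < v) (hv1 : v ≤ 1 / 10) (α : ℝ) :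
    ‖GG (Real.cos (v ^ 3 / 2)) (RR v * exp (α * I)) - 1 - TT v α‖ ≤ 1 / 3 := by
  have hterm : ∀ N : ℕ, ((RR v : ℂ) * exp (α * I) * uu (Real.cos (v ^ 3 / 2)) N) ^ N /
      (N.factorial : ℂ) = (ac v N : ℂ) * exp (N * (α * I)) := by
    intro N
    rw [ac, exp_nat_mul]
    push_cast
    ring
  have hn : ∀ N : ℕ, ‖exp (N * (α * I))‖ = 1 := by
    intro N
    rw [exp_nat_mul, norm_pow, norm_exp_ofReal_mul_I, one_pow]
  have hs1 : Summable fun N : ℕ => (ac v N : ℂ) * exp (N * (α * I)) := by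
    simpa only [hterm] using (summable_GG (sin_phi_pos hv hv1) (RR v * exp (α * I))).of_norm
  have hs2 : Summable fun N : ℕ => (ab v N : ℂ) * exp (N * (α * I)) := by
    refine Summable.of_norm ?_
    simpa only [norm_mul, hn, mul_one, norm_real, Real.norm_eq_abs, abs_of_nonneg (ab_nonneg v _)]
      using summable_ab hv
  have h1 : GG (Real.cos (v ^ 3 / 2)) (RR v * exp (α * I)) - 1 - TT v α =
      ∑' N : ℕ, ((ac v (N + 1) - ab v (N + 1) : ℝ) : ℂ) * exp ((N + 1 : ℕ) * (α * I)) := by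
    have e1 : GG (Real.cos (v ^ 3 / 2)) (RR v * exp (α * I)) - TT v α =
        ∑' N : ℕ, ((ac v N : ℂ) * exp (N * (α * I)) - (ab v N : ℂ) * exp (N * (α * I))) := by
      rw [hs1.tsum_sub hs2, GG, TT]
      simp only [hterm]
    rw [sub_right_comm, e1, (hs1.sub hs2).tsum_eq_zero_add]
    have e2 : ac v 0 = 1 := by simp [ac]
    rw [e2, ab_zero]
    simp only [Nat.cast_zero, zero_mul, exp_zero, ofReal_one, ofReal_zero, mul_one, sub_zero,
      add_sub_cancel_left, ofReal_sub, sub_mul]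
  rw [h1]
  refine le_trans (tsum_of_norm_bounded (summable_err hv hv1).hasSum fun N => ?_) (tsum_err hv hv1)
  rw [norm_mul, hn, mul_one, norm_real, Real.norm_eq_abs]

theorem pos_small {v : ℝ} (hv : 0 < v) (hv1 : v ≤ 1 / 10) {x : ℝ} (hx : 0 ≤ x) (hx1 : x ≤ RR v) :
    0 < (GG (Real.cos (v ^ 3 / 2)) x).re := by
  have hR := RR_pos hv hv1
  have hterm : ∀ N : ℕ, ((x : ℂ) * uu (Real.cos (v ^ 3 / 2)) N) ^ N / (N.factorial : ℂ) =
      (((x / RR v) ^ N * ac v N : ℝ) : ℂ) := by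
    intro N
    have e : (x / RR v) ^ N * ac v N = (x * uu (Real.cos (v ^ 3 / 2)) N) ^ N / N.factorial := by
      rw [ac, ← mul_div_assoc, ← mul_pow, ← mul_assoc, div_mul_cancel₀ _ hR.ne']
    rw [e]
    push_cast
    rfl
  have hs : Summable fun N : ℕ => (x / RR v) ^ N * ac v N := by
    refine Summable.of_norm ?_
    simpa only [hterm, norm_real] using summable_GG (sin_phi_pos hv hv1) (x : ℂ)
  rw [GG]
  simp only [hterm]
  rw [← ofReal_tsum, ofReal_re, hs.tsum_eq_zero_add]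
  have e2 : ac v 0 = 1 := by simp [ac]
  have h1 : ∑' k, -|ac v (k + 1) - ab v (k + 1)| ≤
      ∑' k : ℕ, (x / RR v) ^ (k + 1) * ac v (k + 1) := by
    refine (summable_err hv hv1).neg.tsum_le_tsum (fun k => ?_) ((summable_nat_add_iff 1).2 hs)
    have a1 : 0 ≤ (x / RR v) ^ (k + 1) := by positivity
    have a2 : (x / RR v) ^ (k + 1) ≤ 1 := pow_le_one₀ (by positivity) ((div_le_one hR).2 hx1)
    have a3 := neg_abs_le (ac v (k + 1) - ab v (k + 1))
    have a4 := ab_nonneg v (k + 1)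
    have a5 := abs_nonneg (ac v (k + 1) - ab v (k + 1))
    nlinarith
  rw [tsum_neg] at h1
  have h2 := tsum_err hv hv1
  rw [e2, pow_zero]
  linarith

end Pool.Agent.MP_39ed1d_co.H6
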