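import Pool.Agent.MP_39ed1d_co.H76.Defs

/-! Elementary estimates: Stirling, the cardinal sine and the profile `om`. -/

namespace Pool.Agent.MP_39ed1d_co.H6

open Pool.Agent.MP_39ed1d_co.H76 Filter Topology

theorem stirling_upper {N : ℕ} (hN : 1 ≤ N) :
    (N.factorial : ℝ) ≤ √(2 * Real.pi * N) * (N / Real.exp 1) ^ N * Real.exp (1 / (12 * N)) := by
  have hN' : (1 : ℝ) ≤ N := by exact_mod_cast hN
  have h1 : ∀ k : ℕ, Real.log (Stirling.stirlingSeq N) - Real.log (Stirling.stirlingSeq (N + k)) ≤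
      1 / (12 * N) - 1 / (12 * ((N : ℝ) + k)) := by
    intro k
    induction k with
    | zero => simp
    | succ k ih =>
      have h2 := Stirling.log_stirlingSeq_sdiff_le (N + k)
      have h3 : (1 : ℝ) / (12 * ((N + k : ℕ) : ℝ) * (((N + k : ℕ) : ℝ) + 1)) =
          1 / (12 * ((N : ℝ) + k)) - 1 / (12 * ((N : ℝ) + ((k + 1 : ℕ) : ℝ))) := by
        have : (0 : ℝ) ≤ k := Nat.cast_nonneg k
        push_cast
        field_simp
        ring
      rw [h3] at h2
      rw [← add_assoc]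
      linarith
  have hpi : 0 < √Real.pi := Real.sqrt_pos.2 Real.pi_pos
  have h4 : Tendsto (fun k : ℕ => Real.log (Stirling.stirlingSeq N) -
      Real.log (Stirling.stirlingSeq (N + k))) atTop
      (𝓝 (Real.log (Stirling.stirlingSeq N) - Real.log (√Real.pi))) := by
    refine tendsto_const_nhds.sub (Tendsto.log ?_ hpi.ne')
    simp_rw [add_comm N]
    exact (tendsto_add_atTop_iff_nat N).2 Stirling.tendsto_stirlingSeq_sqrt_pi
  have h5 : Real.log (Stirling.stirlingSeq N) - Real.log (√Real.pi) ≤ 1 / (12 * N) := by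
    refine le_of_tendsto' h4 fun k => (h1 k).trans ?_
    have : (0 : ℝ) ≤ 1 / (12 * ((N : ℝ) + k)) := by positivity
    linarith
  have hs : 0 < Stirling.stirlingSeq N := hpi.trans_le (Stirling.sqrt_pi_le_stirlingSeq (by omega))
  have h6 : Stirling.stirlingSeq N ≤ √Real.pi * Real.exp (1 / (12 * N)) := by
    rw [← Real.exp_log hs, ← Real.exp_log hpi, ← Real.exp_add]
    exact Real.exp_le_exp.2 (by linarith)
  rw [Stirling.stirlingSeq, div_le_iff₀ (by positivity)] at h6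
  refine h6.trans (le_of_eq ?_)
  rw [show 2 * Real.pi * N = Real.pi * (2 * N) by ring, Real.sqrt_mul Real.pi_pos.le]
  ring

theorem sin_seven {x : ℝ} (h0 : 0 ≤ x) (h1 : x ≤ 1) :
    |Real.sin x - (x - x ^ 3 / 6 + x ^ 5 / 120)| ≤ x ^ 7 / 4410 := by
  have hn : ‖(x : ℂ) * Complex.I‖ = x := by simp [abs_of_nonneg h0]
  have h := Complex.exp_bound (x := (x : ℂ) * Complex.I) (by rw [hn]; exact h1) (n := 7)
    (by norm_num)
  rw [hn] at h
  have h2 := (Complex.abs_im_le_norm _).trans h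
  have h3 : (Complex.exp (x * Complex.I) - ∑ m ∈ Finset.range 7,
      ((x : ℂ) * Complex.I) ^ m / (m.factorial : ℂ)).im =
      Real.sin x - (x - x ^ 3 / 6 + x ^ 5 / 120) := by
    have e : ∑ m ∈ Finset.range 7, ((x : ℂ) * Complex.I) ^ m / (m.factorial : ℂ) =
        ((1 - x ^ 2 / 2 + x ^ 4 / 24 - x ^ 6 / 720 : ℝ) : ℂ) +
          ((x - x ^ 3 / 6 + x ^ 5 / 120 : ℝ) : ℂ) * Complex.I := by
      simp only [Finset.sum_range_succ, Finset.sum_range_zero, Nat.factorial]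
      push_cast
      linear_combination (x ^ 2 / 2 + x ^ 3 * Complex.I / 6 + x ^ 4 * (Complex.I ^ 2 - 1) / 24 +
        x ^ 5 * Complex.I * (Complex.I ^ 2 - 1) / 120 +
        x ^ 6 * (Complex.I ^ 4 - Complex.I ^ 2 + 1) / 720) * Complex.I_sq
    rw [e, Complex.sub_im, Complex.exp_ofReal_mul_I_im, Complex.add_im, Complex.ofReal_im,
      Complex.mul_im, Complex.ofReal_im, Complex.ofReal_re]
    simp
  rw [h3] at h2
  refine h2.trans (le_of_eq ?_)
  norm_num [Nat.factorial]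
  ring

theorem exp_neg_le {t : ℝ} (ht : 0 ≤ t) : Real.exp (-t) ≤ 1 - t + t ^ 2 / 2 := by
  have h := Real.quadratic_le_exp_of_nonneg ht
  rw [Real.exp_neg, inv_le_iff_one_le_mul₀ (Real.exp_pos t)]
  have h2 : 0 ≤ 1 - t + t ^ 2 / 2 := by nlinarith [sq_nonneg (t - 1)]
  nlinarith [mul_le_mul_of_nonneg_left h h2, pow_nonneg ht 4]

theorem sinc_upper {x : ℝ} (h0 : 0 < x) (h1 : x ≤ 1) :
    Real.sin x / x ≤ Real.exp (-(x ^ 2 / 6)) := by
  have h := (abs_le.1 (sin_seven h0.le h1)).2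
  have hX : x ^ 2 ≤ 1 := by nlinarith
  have hX0 : 0 ≤ x ^ 2 := by positivity
  have h2 := Real.exp_bound (x := -(x ^ 2 / 6)) (by rw [abs_neg, abs_of_nonneg] <;> linarith)
    (n := 3) (by norm_num)
  rw [abs_neg, abs_of_nonneg (by linarith : 0 ≤ x ^ 2 / 6)] at h2
  have h3 := (abs_le.1 h2).1
  simp only [Finset.sum_range_succ, Finset.sum_range_zero, Nat.factorial] at h3
  norm_num at h3
  rw [div_le_iff₀ h0]
  have h4 : 1 - x ^ 2 / 6 + x ^ 4 / 120 + x ^ 6 / 4410 ≤ Real.exp (-(x ^ 2 / 6)) := by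
    have : x ^ 6 ≤ x ^ 4 := by nlinarith [pow_nonneg h0.le 4]
    nlinarith [pow_nonneg h0.le 4]
  nlinarith [mul_le_mul_of_nonneg_right h4 h0.le]

theorem sinc_lower {x : ℝ} (h0 : 0 < x) (h1 : x ≤ 1) :
    Real.exp (-(x ^ 2 / 6 + x ^ 4 / 140)) ≤ Real.sin x / x := by
  have h := (abs_le.1 (sin_seven h0.le h1)).1
  have hX : x ^ 2 ≤ 1 := by nlinarith
  have h4 : 0 ≤ x ^ 4 := by positivity
  have h2 := exp_neg_le (t := x ^ 2 / 6 + x ^ 4 / 140) (by positivity)
  have h6 : x ^ 6 ≤ x ^ 4 := by nlinarith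
  have h8 : x ^ 8 ≤ x ^ 4 := by nlinarith [pow_nonneg h0.le 6]
  have h5 : Real.exp (-(x ^ 2 / 6 + x ^ 4 / 140)) ≤
      1 - x ^ 2 / 6 + x ^ 4 / 120 - x ^ 6 / 4410 := by nlinarith
  rw [le_div_iff₀ h0]
  nlinarith [mul_le_mul_of_nonneg_right h5 h0.le]

theorem sinc_big {x : ℝ} (h1 : 1 ≤ x) : |Real.sin x / x| ≤ 89 / 100 := by
  rw [abs_div, abs_of_pos (by linarith : 0 < x), div_le_iff₀ (by linarith)]
  rcases le_total x (6 / 5) with h | h
  · have h2 := Real.abs_sin_sub_sin_le x 1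
    rw [abs_of_nonneg (by linarith : 0 ≤ x - 1)] at h2
    have h3 := abs_le.1 (sin_seven zero_le_one le_rfl)
    have h4 := abs_le.1 h2
    rw [abs_le]
    constructor <;> nlinarith [h3.1, h3.2, h4.1, h4.2]
  · linarith [Real.abs_sin_le_one x]

theorem exp_ge_pow {t : ℝ} (ht : 0 ≤ t) (n : ℕ) : t ^ n / n.factorial ≤ Real.exp t :=
  Real.pow_div_factorial_le_exp t ht n

theorem exp_frac_le {a E : ℝ} (h0 : 0 ≤ a) (h1 : a ≤ 1)
    (h : 1 + a + a ^ 2 / 2 + a ^ 3 / 6 + a ^ 4 * (5 / 96) ≤ E) : Real.exp a ≤ E := by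
  have := Real.exp_bound' h0 h1 (n := 4) (by norm_num)
  simp only [Finset.sum_range_succ, Finset.sum_range_zero, Nat.factorial] at this
  norm_num at this
  linarith

theorem om_le_max {s : ℝ} (hs : 0 ≤ s) : om s ≤ 764 / 100 := by
  have h1 : om s ≤ Real.exp (1 + 1 + 33 / 1000) := by
    refine Real.exp_le_exp.2 ?_
    nlinarith [mul_nonneg (sq_nonneg (s - 29 / 10)) (by linarith : 0 ≤ s + 58 / 10)]
  refine h1.trans ?_
  rw [Real.exp_add, Real.exp_add]
  have h2 := Real.exp_one_lt_d9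
  have h3 : Real.exp (33 / 1000) ≤ 10336 / 10000 :=
    exp_frac_le (by norm_num) (by norm_num) (by norm_num)
  have h4 := Real.exp_pos 1
  calc Real.exp 1 * Real.exp 1 * Real.exp (33 / 1000)
      ≤ 2.7182818286 * 2.7182818286 * (10336 / 10000) := by gcongr
    _ ≤ _ := by norm_num

theorem om_le_lin {s : ℝ} (hs : 0 ≤ s) (h2 : s ≤ 2) : om s ≤ 1 + 36 / 10 * s := by
  have h1 : om s ≤ Real.exp ((1 - s / 2) • (0 : ℝ) + (s / 2) • (21 / 10 : ℝ)) := by
    refine Real.exp_le_exp.2 ?_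
    simp only [smul_eq_mul]
    nlinarith [pow_nonneg hs 3]
  have h3 := convexOn_exp.2 (Set.mem_univ (0 : ℝ)) (Set.mem_univ (21 / 10 : ℝ))
    (by linarith : 0 ≤ 1 - s / 2) (by linarith : 0 ≤ s / 2) (by ring)
  have h4 : Real.exp (21 / 10) ≤ 82 / 10 := by
    rw [show (21 / 10 : ℝ) = 1 + 1 + 1 / 10 by norm_num, Real.exp_add, Real.exp_add]
    have h2 := Real.exp_one_lt_d9
    have h3 : Real.exp (1 / 10) ≤ 11052 / 10000 :=
      exp_frac_le (by norm_num) (by norm_num) (by norm_num)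
    have h4 := Real.exp_pos 1
    calc Real.exp 1 * Real.exp 1 * Real.exp (1 / 10)
        ≤ 2.7182818286 * 2.7182818286 * (11052 / 10000) := by gcongr
      _ ≤ _ := by norm_num
  simp only [smul_eq_mul, Real.exp_zero] at h1 h3
  nlinarith

theorem pow_five_le {s t : ℝ} (hs : 0 ≤ s) (ht : 0 < t) :
    s ^ 5 ≤ t ^ 5 * Real.exp (5 * ((s - t) / t)) := by
  have h1 := Real.add_one_le_exp ((s - t) / t)
  have h2 : (s - t) / t + 1 = s / t := by field_simp; ring
  rw [h2] at h1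
  have h3 := pow_le_pow_left₀ (by positivity) h1 5
  rw [← Real.exp_nat_mul, div_pow, div_le_iff₀ (by positivity)] at h3
  push_cast at h3
  linarith

theorem om_pow_le {s : ℝ} (hs : 0 ≤ s) : om s * s ^ 5 ≤ 4970 := by
  have h1 := pow_five_le hs (t := 21 / 5) (by norm_num)
  have h2 : om s * Real.exp (5 * ((s - 21 / 5) / (21 / 5))) ≤ Real.exp (1 + 1 / 3) := by
    rw [om, ← Real.exp_add]
    refine Real.exp_le_exp.2 ?_
    nlinarith [mul_nonneg (sq_nonneg (s - 423 / 100)) (by linarith : 0 ≤ s + 846 / 100)]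
  have h3 : Real.exp (1 + 1 / 3) ≤ 38 / 10 := by
    rw [Real.exp_add]
    have h2 := Real.exp_one_lt_d9
    have h3 : Real.exp (1 / 3) ≤ 13960 / 10000 :=
      exp_frac_le (by norm_num) (by norm_num) (by norm_num)
    calc Real.exp 1 * Real.exp (1 / 3) ≤ 2.7182818286 * (13960 / 10000) := by gcongr
      _ ≤ _ := by norm_num
  have := om_pos s
  nlinarith [mul_le_mul_of_nonneg_left h1 this.le]

theorem om_pow_six {s : ℝ} (hs : 6 ≤ s) : om s * s ^ 5 ≤ 900 ∧ om s ≤ 1 := by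
  have h1 := pow_five_le (by linarith : 0 ≤ s) (t := 6) (by norm_num)
  have h2 : om s * Real.exp (5 * ((s - 6) / 6)) ≤ Real.exp (-(27 / 10)) := by
    rw [om, ← Real.exp_add]
    refine Real.exp_le_exp.2 ?_
    nlinarith [mul_nonneg (by linarith : 0 ≤ s - 6) (sq_nonneg s),
      mul_nonneg (by linarith : 0 ≤ s - 6) (by linarith : 0 ≤ s - 6)]
  have h3 : Real.exp (-(27 / 10)) ≤ 1 / 10 := by
    have := Real.sum_le_exp_of_nonneg (x := 27 / 10) (by norm_num) 4
    simp only [Finset.sum_range_succ, Finset.sum_range_zero, Nat.factorial] at this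
    rw [Real.exp_neg, inv_le_comm₀ (Real.exp_pos _) (by norm_num)]
    norm_num at this ⊢
    linarith
  have := om_pos s
  refine ⟨by nlinarith [mul_le_mul_of_nonneg_left h1 this.le], ?_⟩
  rw [om, Real.exp_le_one_iff]
  nlinarith [mul_nonneg (by linarith : 0 ≤ s) (by nlinarith : 0 ≤ s ^ 2 - 36)]

theorem om_eight {s : ℝ} (hs : 8 ≤ s) : om s * (1 / 12 + s ^ 6 / 2240) ≤ 1 / 12 := by
  have h0 : 0 ≤ s := by linarith
  have h3 : 512 ≤ s ^ 3 := by nlinarith [mul_nonneg h0 h0]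
  have ht : s ^ 3 / 40 ≤ s ^ 3 / 24 - 21 / 20 * s := by
    nlinarith [mul_nonneg h0 (by nlinarith : 0 ≤ s ^ 2 - 64)]
  set t := s ^ 3 / 40 with htd
  have ht0 : 12 ≤ t := by linarith
  have h1 : om s ≤ Real.exp (-t) := Real.exp_le_exp.2 (by linarith)
  have h2 := Real.sum_le_exp_of_nonneg (x := t) (by linarith) 6
  simp only [Finset.sum_range_succ, Finset.sum_range_zero, Nat.factorial] at h2
  norm_num at h2
  have h4 : s ^ 6 = 1600 * t ^ 2 := by rw [htd]; ring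
  have h5 : 1728 ≤ t ^ 3 := by nlinarith
  have h6 : 1 + 12 * (s ^ 6 / 2240) ≤ Real.exp t := by
    have e2 : 0 ≤ t ^ 2 := by positivity
    have e4 : 0 ≤ t ^ 4 := by positivity
    rw [h4]
    nlinarith [mul_le_mul_of_nonneg_left h5 e2]
  have h7 : Real.exp (-t) * Real.exp t = 1 := by rw [← Real.exp_add]; simp
  have h8 := Real.exp_pos (-t)
  have h9 : 0 ≤ 1 / 12 + s ^ 6 / 2240 := by positivity
  nlinarith [mul_le_mul_of_nonneg_right h1 h9, mul_le_mul_of_nonneg_left h6 h8.le]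

/-- The step majorant. -/
noncomputable def step (s : ℝ) : ℝ := (if s ≤ 8 then 41 / 100 else 0) +
  (if 2 ≤ s ∧ s ≤ 6 then 7 / 10 else 0) + (if 3 ≤ s ∧ s ≤ 6 then 13 / 10 else 0)

theorem step_nonneg (s : ℝ) : 0 ≤ step s := by
  unfold step
  positivity

theorem psi_le {s : ℝ} (hs : 0 ≤ s) : om s * (1 / 12 + s ^ 6 / 2240) ≤ 1 / 12 + s * step s := by
  have hm := om_le_max hs
  have hp := om_pos s
  have e : om s * (1 / 12 + s ^ 6 / 2240) = om s / 12 + s * (om s * s ^ 5) / 2240 := by ring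
  unfold step
  rcases lt_or_ge s 2 with h2 | h2
  · rw [if_pos (by linarith), if_neg (fun h => by linarith [h.1]),
      if_neg (fun h => by linarith [h.1]), e]
    have h1 := om_le_lin hs h2.le
    have h5 : s ^ 5 ≤ 2 ^ 5 := pow_le_pow_left₀ hs h2.le 5
    have h6 : om s * s ^ 5 ≤ 764 / 100 * 2 ^ 5 := by gcongr
    nlinarith [mul_le_mul_of_nonneg_left h6 hs]
  rcases lt_or_ge s 3 with h3 | h3
  · rw [if_pos (by linarith), if_pos ⟨h2, by linarith⟩, if_neg (fun h => by linarith [h.1]), e]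
    have h5 : s ^ 5 ≤ 3 ^ 5 := pow_le_pow_left₀ hs h3.le 5
    have h6 : om s * s ^ 5 ≤ 764 / 100 * 3 ^ 5 := by gcongr
    nlinarith [mul_le_mul_of_nonneg_left h6 hs]
  rcases le_or_gt s 6 with h6 | h6
  · rw [if_pos (by linarith), if_pos ⟨h2, h6⟩, if_pos ⟨h3, h6⟩, e]
    nlinarith [mul_le_mul_of_nonneg_left (om_pow_le hs) hs]
  rcases le_or_gt s 8 with h8 | h8
  · rw [if_pos h8, if_neg (fun h => by linarith [h.2]), if_neg (fun h => by linarith [h.2]), e]
    obtain ⟨h1, h1'⟩ := om_pow_six h6.le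
    nlinarith [mul_le_mul_of_nonneg_left h1 hs]
  · rw [if_neg (by linarith), if_neg (fun h => by linarith [h.2]),
      if_neg (fun h => by linarith [h.2])]
    linarith [om_eight h8.le]

end Pool.Agent.MP_39ed1d_co.H6
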