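import Pool.Agent.MP_39ed1d_co.H76.Wind

/-! Darboux type lower bound for the coefficients of `E ^ q` inside the disc. -/

namespace Pool.Agent.MP_39ed1d_co.H6

open Pool.Agent.MP_39ed1d_co.H76 Filter Finset Topology

/-- coefficients of the solution of `A' = u A`, `A 0 = 1` -/
noncomputable def sol (u : ℕ → ℂ) : ℕ → ℂ
  | 0 => 1
  | n + 1 => (∑ k : Fin (n + 1), u k * sol u (n - k)) / (n + 1)
decreasing_by omega

theorem sol_zero (u : ℕ → ℂ) : sol u 0 = 1 := by rw [sol]

theorem sol_succ (u : ℕ → ℂ) (n : ℕ) : ((n : ℂ) + 1) * sol u (n + 1) =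
    ∑ k ∈ range (n + 1), u k * sol u (n - k) := by
  have h : ((n : ℂ) + 1) ≠ 0 := by exact_mod_cast n.succ_ne_zero
  rw [sol, Fin.sum_univ_eq_sum_range (fun k => u k * sol u (n - k)) (n + 1)]
  field_simp

theorem sol_unique (u W : ℕ → ℂ) (h0 : W 0 = 1)
    (h : ∀ n : ℕ, ((n : ℂ) + 1) * W (n + 1) = ∑ k ∈ range (n + 1), u k * W (n - k)) (n : ℕ) :
    W n = sol u n := by
  induction n using Nat.strong_induction_on with
  | _ n ih =>
    rcases n with _ | n
    · rw [h0, sol_zero]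
    · have hn : ((n : ℂ) + 1) ≠ 0 := by exact_mod_cast n.succ_ne_zero
      apply mul_left_cancel₀ hn
      rw [h, sol_succ]
      exact sum_congr rfl fun k _ => by rw [ih _ (by omega)]

open PowerSeries in
theorem ps_sol (u : ℕ → ℂ) : d⁄dX ℂ (mk (sol u)) = mk u * mk (sol u) := by
  ext n
  rw [coeff_derivative, coeff_mul, Finset.Nat.sum_antidiagonal_eq_sum_range_succ
    (fun i j => coeff i (mk u) * coeff j (mk (sol u)))]
  simp only [coeff_mk]
  rw [← sol_succ]; ring

open PowerSeries in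
theorem sol_add (u v : ℕ → ℂ) (n : ℕ) :
    sol (fun k => u k + v k) n = ∑ p ∈ antidiagonal n, sol u p.1 * sol v p.2 := by
  have h := ps_unique (mk fun k => u k + v k) _ (mk (sol u) * mk (sol v)) (ps_sol _) (by
    have : (mk fun k => u k + v k : ℂ⟦X⟧) = mk u + mk v := by ext; simp
    rw [Derivation.leibniz, ps_sol, ps_sol, this]
    simp only [smul_eq_mul]
    ring) (by simp [coeff_mul, sol_zero])
  have := congrArg (coeff n) h
  simpa only [coeff_mul, coeff_mk] using this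

theorem sol_const (q : ℂ) (n : ℕ) :
    ((n : ℂ) + 1) * sol (fun _ => -q) (n + 1) = (n - q) * sol (fun _ => -q) n := by
  rw [sol_succ, sum_range_succ']
  rcases n with _ | n
  · simp
  · have := sol_succ (fun _ => -q) n
    simp only [Nat.add_sub_add_right, Nat.sub_zero]
    rw [← this]
    push_cast
    ring

theorem sol_step {u : ℕ → ℂ} {a γ δ C : ℝ} (hγ : 0 ≤ γ) (hδ : γ < δ) (ha : 0 ≤ a) (hC : 0 ≤ C)
    (hu : ∀ k, ‖u k‖ ≤ a * γ ^ k) (n : ℕ) (h : ∀ k ≤ n, ‖sol u k‖ ≤ C * δ ^ k) :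
    ((n : ℝ) + 1) * ‖sol u (n + 1)‖ ≤ a / (δ - γ) * (C * δ ^ (n + 1)) := by
  have h1 : ((n : ℝ) + 1) * ‖sol u (n + 1)‖ = ‖∑ k ∈ range (n + 1), u k * sol u (n - k)‖ := by
    rw [← sol_succ, norm_mul]
    congr 1
    exact_mod_cast (Complex.norm_natCast (n + 1)).symm
  have hδ0 : 0 ≤ δ := hγ.trans hδ.le
  have h2 : ‖∑ k ∈ range (n + 1), u k * sol u (n - k)‖ ≤
      a * C * ∑ k ∈ range (n + 1), γ ^ k * δ ^ (n + 1 - 1 - k) := by
    rw [mul_sum]
    refine norm_sum_le_of_le _ fun k _ => ?_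
    rw [norm_mul, Nat.add_sub_cancel]
    calc _ ≤ (a * γ ^ k) * (C * δ ^ (n - k)) :=
          mul_le_mul (hu k) (h _ (by omega)) (norm_nonneg _) (by positivity)
      _ = _ := by ring
  have h3 := geom_sum₂_mul γ δ (n + 1)
  have h4 : 0 < δ - γ := by linarith
  have h5 : ∑ k ∈ range (n + 1), γ ^ k * δ ^ (n + 1 - 1 - k) ≤ δ ^ (n + 1) / (δ - γ) := by
    rw [le_div_iff₀ h4]
    have : 0 ≤ γ ^ (n + 1) := by positivity
    linarith
  rw [h1]
  refine h2.trans ?_
  calc _ ≤ a * C * (δ ^ (n + 1) / (δ - γ)) := by gcongr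
    _ = _ := by ring

theorem sol_bound {a γ δ : ℝ} (hγ : 0 < γ) (hδ : γ < δ) (ha : 0 < a) :
    ∃ C : ℝ, 1 ≤ C ∧ ∀ u : ℕ → ℂ, (∀ k, ‖u k‖ ≤ a * γ ^ k) → ∀ n, ‖sol u n‖ ≤ C * δ ^ n := by
  have hδ0 : 0 < δ := hγ.trans hδ
  obtain ⟨N, hN⟩ := exists_nat_ge (a / (δ - γ))
  set D := max 1 ((γ + a) / δ) with hD
  have hD1 : 1 ≤ D := le_max_left _ _
  refine ⟨D ^ N, one_le_pow₀ hD1, fun u hu => ?_⟩
  have h1 : ∀ n, ‖sol u n‖ ≤ 1 * (γ + a) ^ n := by
    intro n
    induction n using Nat.strong_induction_on with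
    | _ n ih =>
      rcases n with _ | n
      · simp [sol_zero]
      · have := sol_step hγ.le (by linarith : γ < γ + a) ha.le zero_le_one hu n
          fun k hk => ih k (by omega)
        rw [add_sub_cancel_left, div_self ha.ne', one_mul] at this
        have h2 : (0 : ℝ) ≤ n := n.cast_nonneg
        nlinarith [norm_nonneg (sol u (n + 1))]
  intro n
  induction n using Nat.strong_induction_on with
  | _ n ih =>
    by_cases hn : n ≤ N
    · refine (h1 n).trans ?_
      have h2 : γ + a ≤ D * δ := by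
        rw [← div_le_iff₀ hδ0]; exact le_max_right _ _
      calc 1 * (γ + a) ^ n ≤ (D * δ) ^ n := by rw [one_mul]; gcongr
        _ = D ^ n * δ ^ n := mul_pow _ _ _
        _ ≤ _ := by gcongr
    · obtain ⟨n, rfl⟩ : ∃ m, n = m + 1 := ⟨n - 1, by omega⟩
      have := sol_step hγ.le hδ ha.le (by positivity : 0 ≤ D ^ N) hu n fun k hk => ih k (by omega)
      have h2 : (N : ℝ) ≤ n := by exact_mod_cast (by omega : N ≤ n)
      have h3 : (0 : ℝ) < n + 1 := by positivity
      refine le_of_mul_le_mul_left (this.trans ?_) h3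
      gcongr
      linarith

theorem tendsto_err {e β : ℕ → ℝ} {δ c : ℝ} (hδ0 : 0 ≤ δ) (hδ : δ < 1) (he : ∀ n, 0 ≤ e n)
    (hβ : Tendsto β atTop (𝓝 0)) (h : ∀ n, e (n + 1) = δ * (1 + β n) * e n + c * β n) :
    Tendsto e atTop (𝓝 0) := by
  set l := (1 + δ) / 2 with hl
  have hl1 : l < 1 := by linarith
  have hl0 : 0 ≤ l := by linarith
  rw [Metric.tendsto_atTop]
  intro ε hε
  have h1 : ∀ᶠ n in atTop, δ * (1 + β n) < l := by
    have : Tendsto (fun n => δ * (1 + β n)) atTop (𝓝 (δ * (1 + 0))) :=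
      (hβ.const_add 1).const_mul δ
    exact this.eventually (gt_mem_nhds (by linarith))
  have h2 : ∀ᶠ n in atTop, c * β n < ε / 2 * (1 - l) := by
    have : Tendsto (fun n => c * β n) atTop (𝓝 (c * 0)) := hβ.const_mul c
    exact this.eventually (gt_mem_nhds (by rw [mul_zero]; exact mul_pos (by linarith) (by linarith)))
  obtain ⟨N, hN⟩ := eventually_atTop.1 (h1.and h2)
  have h3 : ∀ k, e (N + k) ≤ l ^ k * e N + ε / 2 := by
    intro k
    induction k with
    | zero => simp; linarith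
    | succ k ih =>
      obtain ⟨h4, h5⟩ := hN (N + k) (by omega)
      rw [← add_assoc, h, pow_succ]
      have h6 := mul_le_mul_of_nonneg_right h4.le (he (N + k))
      have h7 := mul_le_mul_of_nonneg_left ih hl0
      nlinarith
  have h4 : Tendsto (fun k => l ^ k * e N) atTop (𝓝 (0 * e N)) :=
    (tendsto_pow_atTop_nhds_zero_of_lt_one hl0 hl1).mul_const _
  obtain ⟨M, hM⟩ := eventually_atTop.1 (h4.eventually (gt_mem_nhds (by linarith : 0 * e N < ε / 2)))
  refine ⟨N + M, fun n hn => ?_⟩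
  obtain ⟨k, rfl⟩ : ∃ k, n = N + k := ⟨n - N, by omega⟩
  rw [Real.dist_eq, sub_zero, abs_of_nonneg (he _)]
  linarith [h3 k, hM k (by omega)]

theorem darboux {a γ κ : ℝ} (hγ : 0 < γ) (hγ1 : γ < 1) (ha : 0 < a) (hκ : 0 < κ) :
    ∃ κ' : ℝ, 0 < κ' ∧ ∀ᶠ n : ℕ in atTop, ∀ (q : ℂ) (s : ℕ → ℂ), ‖q‖ ≤ 2 →
      (∀ i : ℕ, κ * (i + 1) ≤ ‖(i : ℂ) - q‖) → (∀ k, ‖s k‖ ≤ a * γ ^ k) →
      κ' ^ n ≤ ‖sol (fun k => -q + s k) n‖ := by
  set δ := (1 + γ) / 2 with hδ
  have hδ1 : δ < 1 := by linarith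
  have hδ0 : 0 < δ := by linarith
  have h1δ : 0 < 1 - δ := by linarith
  obtain ⟨C, hC1, hC⟩ := sol_bound hγ (by linarith : γ < δ) ha
  have hC0 : 0 < C := by linarith
  let β : ℕ → ℝ := fun i => 3 / κ * (1 / ((i : ℝ) + 1))
  have hβ0 : ∀ i, 0 ≤ β i := fun i => by positivity
  have hβ : Tendsto β atTop (𝓝 0) := by
    have := (tendsto_one_div_add_atTop_nhds_zero_nat (𝕜 := ℝ)).const_mul (3 / κ)
    rwa [mul_zero] at this
  let e : ℕ → ℝ := fun n => Nat.rec 0 (fun n x => δ * (1 + β n) * x + 1 / (1 - δ) * β n) n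
  have he1 : ∀ n, e (n + 1) = δ * (1 + β n) * e n + 1 / (1 - δ) * β n := fun _ => rfl
  have he0 : ∀ n, 0 ≤ e n := by
    intro n
    induction n with
    | zero => exact le_rfl
    | succ n ih => rw [he1]; have := hβ0 n; positivity
  have he := tendsto_err hδ0.le hδ1 he0 hβ he1
  set σ := (1 - δ) / C with hσ
  have hσ0 : 0 < σ := by positivity
  have hσ1 : σ ≤ 1 := by rw [hσ, div_le_one hC0]; linarith
  have hlim : Tendsto (fun n => C * e n + C * δ ^ (n + 1) / (1 - δ)) atTop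
      (𝓝 (C * 0 + C * 0 / (1 - δ))) :=
    (he.const_mul C).add (((tendsto_pow_atTop_nhds_zero_of_lt_one hδ0.le hδ1).comp
      (tendsto_add_atTop_nat 1)).const_mul C |>.div_const _)
  refine ⟨κ * (σ / 2), by positivity, ?_⟩
  filter_upwards [hlim.eventually (gt_mem_nhds (by simpa using hσ0 :
    C * 0 + C * 0 / (1 - δ) < σ / 2)), eventually_ge_atTop 1] with n hn hn1 q s hq hi hs
  set B := sol (fun _ => -q) with hB
  set H := sol s with hH
  set G := sol (fun k => -s k) with hG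
  have hi0 : ∀ i : ℕ, (i : ℂ) - q ≠ 0 := fun i =>
    norm_pos_iff.1 (lt_of_lt_of_le (by positivity) (hi i))
  have hnn : ∀ i : ℕ, ‖(i : ℂ) + 1‖ = i + 1 := fun i => by
    exact_mod_cast Complex.norm_natCast (i + 1)
  have hBl : ∀ m, κ ^ m ≤ ‖B m‖ := by
    intro m
    induction m with
    | zero => simp [hB, sol_zero]
    | succ m ih =>
      have h1 := congrArg norm (sol_const q m)
      rw [norm_mul, norm_mul, hnn] at h1
      refine le_of_mul_le_mul_left ?_ (by positivity : (0 : ℝ) < m + 1)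
      rw [h1]
      calc ((m : ℝ) + 1) * κ ^ (m + 1) = κ * (m + 1) * κ ^ m := by ring
        _ ≤ _ := mul_le_mul (hi m) ih (by positivity) (norm_nonneg _)
  have hB0 : ∀ m, B m ≠ 0 := fun m => norm_pos_iff.1 (lt_of_lt_of_le (by positivity) (hBl m))
  have hx : ∀ m, ∑ k ∈ range (m + 1), δ ^ (m - k) * ‖B k / B m - 1‖ ≤ e m := by
    intro m
    induction m with
    | zero => simp [hB0 0, e]
    | succ m ih =>
      have hm : ((m : ℂ) + 1) ≠ 0 := by exact_mod_cast m.succ_ne_zero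
      have h1 : B (m + 1) = (m - q) / (m + 1) * B m := by
        rw [div_mul_eq_mul_div, ← sol_const, mul_div_cancel_left₀ _ hm]
      have h2 : ‖(1 + q) / (m - q)‖ ≤ β m := by
        rw [norm_div]
        have h3 : ‖1 + q‖ ≤ 3 := (norm_add_le _ _).trans (by rw [norm_one]; linarith)
        calc _ ≤ 3 / (κ * (m + 1)) := by gcongr; exact hi m
          _ = _ := by simp only [β]; field_simp
      have h3 : ∀ k, ‖B k / B (m + 1) - 1‖ ≤ (1 + β m) * ‖B k / B m - 1‖ + β m := by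
        intro k
        have h4 : B k / B (m + 1) - 1 = (1 + (1 + q) / (m - q)) * (B k / B m - 1) +
            (1 + q) / (m - q) := by
          have := hi0 m
          have := hB0 m
          rw [h1]
          field_simp
          ring
        rw [h4]
        refine (norm_add_le _ _).trans ?_
        rw [norm_mul]
        gcongr
        exact (norm_add_le _ _).trans (by rw [norm_one]; gcongr)
      have h5 : ∑ k ∈ range (m + 1), δ ^ (m + 1 - k) ≤ 1 / (1 - δ) := by
        have h6 := geom_sum_mul δ (m + 1)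
        rw [← sum_range_reflect] at h6
        rw [le_div_iff₀ h1δ]
        have h7 : ∑ k ∈ range (m + 1), δ ^ (m + 1 - k) ≤
            ∑ k ∈ range (m + 1), δ ^ (m + 1 - 1 - k) :=
          sum_le_sum fun k _ => pow_le_pow_of_le_one hδ0.le hδ1.le (by omega)
        have h8 : 0 ≤ δ ^ (m + 1) := by positivity
        nlinarith
      rw [sum_range_succ, div_self (hB0 _), sub_self, norm_zero, mul_zero, add_zero, he1]
      calc _ ≤ ∑ k ∈ range (m + 1), (δ * (1 + β m) * (δ ^ (m - k) * ‖B k / B m - 1‖) +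
            δ ^ (m + 1 - k) * β m) := by
            refine sum_le_sum fun k hk => ?_
            have h9 : δ ^ (m + 1 - k) = δ * δ ^ (m - k) := by
              rw [← pow_succ']; congr 1; have := mem_range.1 hk; omega
            calc _ ≤ δ ^ (m + 1 - k) * ((1 + β m) * ‖B k / B m - 1‖ + β m) := by
                  gcongr; exact h3 k
              _ = _ := by rw [h9]; ring
        _ ≤ _ := by
            rw [sum_add_distrib, ← mul_sum, ← sum_mul]
            have := hβ0 m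
            gcongr
  have hHb := hC s hs
  have hGb := hC (fun k => -s k) fun k => by rw [norm_neg]; exact hs k
  have hgeo : HasSum (fun k => C * δ ^ k) (C * (1 - δ)⁻¹) :=
    (hasSum_geometric_of_lt_one hδ0.le hδ1).mul_left C
  have hHs : Summable fun k => ‖H k‖ :=
    Summable.of_nonneg_of_le (fun _ => norm_nonneg _) hHb hgeo.summable
  have hGs : Summable fun k => ‖G k‖ :=
    Summable.of_nonneg_of_le (fun _ => norm_nonneg _) hGb hgeo.summable
  have hprod : (∑' k, H k) * ∑' k, G k = 1 := by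
    rw [tsum_mul_tsum_eq_tsum_sum_antidiagonal_of_summable_norm hHs hGs]
    simp only [hH, hG, ← sol_add, add_neg_cancel]
    rw [tsum_eq_single 0, sol_zero]
    intro k hk
    obtain ⟨k, rfl⟩ : ∃ m, k = m + 1 := ⟨k - 1, by omega⟩
    rw [sol]
    simp
  have hS : σ ≤ ‖∑' k, H k‖ := by
    have h1 := tsum_of_norm_bounded hgeo hGb
    have h2 := congrArg norm hprod
    rw [norm_mul, norm_one] at h2
    rw [hσ, div_le_iff₀ hC0]
    have h3 := mul_le_mul_of_nonneg_left h1 (norm_nonneg (∑' k, H k))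
    rw [h2, ← mul_assoc, ← div_eq_mul_inv, le_div_iff₀ h1δ, one_mul] at h3
    exact h3
  have htail := norm_sub_le_of_geometric_bound_of_hasSum hδ1 hHb hHs.of_norm.hasSum (n + 1)
  have hW : sol (fun k => -q + s k) n =
      B n * (∑ k ∈ range (n + 1), H k + ∑ k ∈ range (n + 1), H (n - k) * (B k / B n - 1)) := by
    rw [sol_add, Finset.Nat.sum_antidiagonal_eq_sum_range_succ (fun i j => B i * H j),
      ← sum_range_reflect H, ← sum_add_distrib, mul_sum]
    refine sum_congr rfl fun k _ => ?_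
    have := hB0 n
    rw [Nat.add_sub_cancel]
    field_simp
    ring
  have herr : ‖∑ k ∈ range (n + 1), H (n - k) * (B k / B n - 1)‖ ≤ C * e n := by
    refine le_trans ?_ (mul_le_mul_of_nonneg_left (hx n) hC0.le)
    rw [mul_sum]
    refine norm_sum_le_of_le _ fun k _ => ?_
    rw [norm_mul, ← mul_assoc]
    gcongr
    exact hHb _
  have hlow : σ / 2 ≤
      ‖∑ k ∈ range (n + 1), H k + ∑ k ∈ range (n + 1), H (n - k) * (B k / B n - 1)‖ := by
    have h1 := norm_sub_norm_le (∑' k, H k) (∑ k ∈ range (n + 1), H k)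
    rw [norm_sub_rev] at h1
    have h2 := norm_sub_le (∑ k ∈ range (n + 1), H k +
      ∑ k ∈ range (n + 1), H (n - k) * (B k / B n - 1))
      (∑ k ∈ range (n + 1), H (n - k) * (B k / B n - 1))
    rw [add_sub_cancel_right] at h2
    linarith
  rw [hW, norm_mul, mul_pow]
  refine mul_le_mul (hBl n) (le_trans ?_ hlow) (by positivity) (norm_nonneg _)
  exact pow_le_of_le_one (by positivity) (by linarith) (by omega)

theorem inside (hG : Gap) (z : ℂ) (hz : ‖z - 1‖ < 1) (hz1 : z ≠ 1) :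
    ∃ ε κ : ℝ, 0 < ε ∧ 0 < κ ∧ ∀ᶠ n : ℕ in atTop, ∀ q : ℂ, ‖q - z‖ < ε →
      κ ^ n ≤ ‖WW q (1 - q) n‖ := by
  set t := ‖z - 1‖ with ht
  have ht0 : 0 < t := norm_pos_iff.2 (sub_ne_zero.2 hz1)
  set r := (1 + t) / 2 with hr
  have hr1 : 0 < 1 - r := by linarith
  obtain ⟨K, γ, c, hc, hγ, hγ1, hm⟩ := hG r (by linarith)
  have hK : 0 < K := by
    obtain ⟨m, h1, h2, -⟩ := hm 0 (by rw [norm_zero]; linarith)
    linarith
  obtain ⟨κ', hκ', h⟩ := darboux (a := K / c) (κ := min ((1 - r) / 3) (t / 4)) hγ hγ1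
    (by positivity) (by positivity)
  refine ⟨min (t / 2) (1 - r), (1 - r) * c * κ', by positivity, by positivity, ?_⟩
  filter_upwards [h] with n hn q hq
  have hq1 : ‖q - z‖ < t / 2 := hq.trans_le (min_le_left _ _)
  have hq2 : ‖q - z‖ < 1 - r := hq.trans_le (min_le_right _ _)
  have hq3 : ‖1 - q‖ ≤ r := by
    have := norm_add_le (q - z) (z - 1)
    rw [sub_add_sub_cancel] at this
    rw [norm_sub_rev]
    linarith
  have hq4 : t / 2 ≤ ‖1 - q‖ := by
    have := norm_sub_le (q - 1) (q - z)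
    rw [sub_sub_sub_cancel_left] at this
    rw [norm_sub_rev]
    linarith
  have hq5 : 1 - r ≤ ‖q‖ := by
    have := norm_add_le (1 - q) q
    rw [sub_add_cancel, norm_one] at this
    linarith
  have hq6 : ‖q‖ ≤ 2 := by
    have := norm_sub_le 1 (1 - q)
    rw [sub_sub_cancel, norm_one] at this
    linarith
  have hq0 : q ≠ 0 := norm_pos_iff.1 (by linarith)
  obtain ⟨m, hm1, -, hm3⟩ := hm (1 - q) hq3
  have hm0 : m ≠ 0 := norm_pos_iff.1 (by linarith)
  set l := -q * m with hl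
  have hl0 : l ≠ 0 := mul_ne_zero (neg_ne_zero.2 hq0) hm0
  let s : ℕ → ℂ := fun k => -((aa (1 - q) k - (1 - (1 - q)) * m ^ (k + 1)) / m ^ (k + 1))
  have hW : WW q (1 - q) n / l ^ n = sol (fun k => -q + s k) n := by
    refine sol_unique _ (fun n => WW q (1 - q) n / l ^ n) (by simp [WW_zero]) (fun n => ?_) n
    rw [← mul_div_assoc, WW_succ, mul_sum, sum_div]
    refine sum_congr rfl fun k hk => ?_
    obtain ⟨j, rfl⟩ : ∃ j, n = k + j := ⟨n - k, by have := mem_range.1 hk; omega⟩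
    simp only [s, hl, Nat.add_sub_cancel_left, sub_sub_cancel_left, mul_pow, pow_add, pow_one]
    have : (-q) ^ k ≠ 0 := pow_ne_zero _ (neg_ne_zero.2 hq0)
    have : (-q) ^ j ≠ 0 := pow_ne_zero _ (neg_ne_zero.2 hq0)
    field_simp
    ring
  have h1 := hn q s hq6 (fun i => ?_) (fun k => ?_)
  · rw [← hW, norm_div, norm_pow, le_div_iff₀ (pow_pos (norm_pos_iff.2 hl0) n)] at h1
    refine le_trans ?_ h1
    rw [← mul_pow, hl, norm_mul, norm_neg, mul_comm κ']
    gcongr
  · rcases i with _ | _ | i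
    · simp only [Nat.cast_zero, zero_add, mul_one, zero_sub, norm_neg]
      linarith [min_le_left ((1 - r) / 3) (t / 4)]
    · simp only [zero_add, Nat.cast_one]
      linarith [min_le_right ((1 - r) / 3) (t / 4)]
    · have h2 := norm_sub_le (((i + 1 + 1 : ℕ) : ℂ) - q) (1 - q)
      rw [sub_sub_sub_cancel_right, show ((i + 1 + 1 : ℕ) : ℂ) - 1 = ((i + 1 : ℕ) : ℂ) by
        push_cast; ring, Complex.norm_natCast] at h2
      have h3 : (0 : ℝ) ≤ i := i.cast_nonneg
      have h4 := mul_le_mul_of_nonneg_right (min_le_left ((1 - r) / 3) (t / 4))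
        (by positivity : (0 : ℝ) ≤ ((i + 1 + 1 : ℕ) : ℝ) + 1)
      push_cast at h2 h4 ⊢
      nlinarith
  · have hm4 : 0 < ‖m‖ := norm_pos_iff.2 hm0
    simp only [s]
    rw [norm_neg, norm_div, norm_pow, div_le_iff₀ (by positivity)]
    refine (hm3 k).trans ?_
    calc K * γ ^ k * ‖m‖ ^ k = K / c * γ ^ k * (‖m‖ ^ k * c) := by field_simp
      _ ≤ _ := by rw [pow_succ]; gcongr

end Pool.Agent.MP_39ed1d_co.H6
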